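import Mathlib
import Pool.Agent.W866.Tk6

/-!
# Ultrafilters Tukey below a normal ultrafilter: a dichotomy in ZFC

Let `U` be a normal ultrafilter on an uncountable well-ordered set `K` whose initial segments are
smaller than `K` (that is, on a measurable cardinal `κ`).  Every ultrafilter `V ≤_T U` either is
Rudin–Keisler equivalent to a finite Fubini power of `U`, or is above all of them, coherently, and
projects to an ultrafilter on `κ` which is Tukey below `U`, extends the club filter and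
concentrates on the ordinals of cofinality `ω`.  The two alternatives exclude each other.
-/

set_option autoImplicit false

namespace Pool.Agent.Results.MP_491cc4_lc.TukeyDichotomy

open Cardinal Set

universe u

/-- `U` is a normal ultrafilter on the well-ordered set `K`, where `K` is uncountable and all its
proper initial segments have smaller cardinality: `U` is `#K`-complete, uniform (in particular
nonprincipal), and every function regressive on a set of `U` is constant on a set of `U`. -/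
structure IsNormal {K : Type u} [LinearOrder K] [WellFoundedLT K] (U : Ultrafilter K) : Prop where
  uncountable : ℵ₀ < #K
  initial : ∀ x : K, #(Iio x) < #K
  complete : ∀ S : Set (Set K), #S < #K → (∀ s ∈ S, s ∈ U) → ⋂₀ S ∈ U
  uniform : ∀ s : Set K, s ∈ U → #s = #K
  regressive : ∀ f : K → K, {x | f x < x} ∈ U → ∃ y : K, {x | f x = y} ∈ U

/-- `V ≤_T U`: there is a map from `U` to `V`, monotone and with image cofinal in `V`. -/
def TukeyLE {X K : Type u} (V : Ultrafilter X) (U : Ultrafilter K) : Prop :=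
  ∃ f : Set K → Set X, (∀ A ∈ U, f A ∈ V) ∧ (∀ A ∈ U, ∀ B ∈ U, A ⊆ B → f A ⊆ f B) ∧
    ∀ Q ∈ V, ∃ A ∈ U, f A ⊆ Q

/-- `V ≤_RK W`. -/
def RKLE {X Y : Type u} (V : Ultrafilter X) (W : Ultrafilter Y) : Prop :=
  ∃ g : Y → X, W.map g = V

/-- `V ≡_RK W`. -/
def RKEquiv {X Y : Type u} (V : Ultrafilter X) (W : Ultrafilter Y) : Prop :=
  RKLE V W ∧ RKLE W V

/-- The finite Fubini powers `U ^ n`, as ultrafilters on finite sequences; `U ^ 0` is principal,
and `A ∈ U ^ (n+1)` iff for `U`-almost all `a`, for `U ^ n`-almost all `l`, `a :: l ∈ A`. -/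
def fubiniPow {K : Type u} (U : Ultrafilter K) : ℕ → Ultrafilter (List K)
  | 0 => pure []
  | n + 1 => U.bind fun a => (fubiniPow U n).map (List.cons a)

/-- Closed unbounded subsets of `K`. -/
def Club {K : Type u} [LinearOrder K] (C : Set K) : Prop :=
  (∀ a, ∃ c ∈ C, a < c) ∧ ∀ s : Set K, s ⊆ C → s.Nonempty → ∀ c, IsLUB s c → c ∈ C

/-- The points of cofinality `ω`: suprema of strictly increasing sequences. -/
def CofOmega (K : Type u) [LinearOrder K] : Set K :=
  {c | ∃ s : ℕ → K, StrictMono s ∧ IsLUB (range s) c}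

/-- `E` contains all closed unbounded sets and the set of points of cofinality `ω`. -/
def ClubCofOmega {K : Type u} [LinearOrder K] (E : Ultrafilter K) : Prop :=
  (∀ C : Set K, Club C → C ∈ E) ∧ CofOmega K ∈ E

open Pool.Agent.W866.Tk in
theorem fubiniPow_eq {K : Type u} (U : Ultrafilter K) (n : ℕ) : fubiniPow U n = pow U n := by
  induction n with
  | zero => rfl
  | succ n ih => rw [pow_succ', fubiniPow, ih]

open Pool.Agent.W866.Tk in
theorem rk_iff {K X : Type u} (U : Ultrafilter K) (V : Ultrafilter X) (n : ℕ) :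
    RKEquiv V (fubiniPow U n) ↔ RKeq U n V := by
  rw [fubiniPow_eq]
  exact Iff.rfl

open Pool.Agent.W866.Tk in
theorem tr_iff {K X : Type u} (U : Ultrafilter K) (V : Ultrafilter X) :
    TukeyLE V U ↔ ∃ f, TR U V f := by
  constructor
  · rintro ⟨f, h1, h2, h3⟩
    have key : ∀ A, A ∈ U → {x | ∀ B, B ∈ U → A ⊆ B → x ∈ f B} = f A := by
      intro A hA
      ext x
      constructor
      · intro hx
        exact hx A hA subset_rfl
      · intro hx B hB hAB
        exact h2 A hA B hB hAB hx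
    refine ⟨fun A => {x | ∀ B, B ∈ U → A ⊆ B → x ∈ f B}, ?_, ?_, ?_⟩
    · intro A A' hAA x hx B hB hAB
      exact hx B hB (hAA.trans hAB)
    · intro A hA
      have h4 := h1 A hA
      rw [← key A hA] at h4
      exact h4
    · intro Q hQ
      obtain ⟨A, hA, hAQ⟩ := h3 Q hQ
      refine ⟨A, hA, ?_⟩
      rw [← key A hA] at hAQ
      exact hAQ
  · rintro ⟨f, h⟩
    exact ⟨f, fun A hA => h.mem A hA, fun A _ B _ hAB => h.mono A B hAB, fun Q hQ => h.cof Q hQ⟩

open Pool.Agent.W866.Tk in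
/-- **Main theorem.** -/
theorem result (K : Type u) [LinearOrder K] [WellFoundedLT K] (U : Ultrafilter K)
    (hU : IsNormal U) :
    (∀ (X : Type u) (V : Ultrafilter X), TukeyLE V U →
      ((∃ n : ℕ, RKEquiv V (fubiniPow U n)) ∨
        ∃ h : X → ℕ → K, (∀ᶠ x in (V : Filter X), StrictMono (h x)) ∧
          ∀ n : ℕ, V.map (fun x => List.ofFn (fun i : Fin n => h x i)) = fubiniPow U n) ∧
      ((∃ n : ℕ, RKEquiv V (fubiniPow U n)) ↔
        ¬ ∃ E : Ultrafilter K, RKLE E V ∧ TukeyLE E U ∧ ClubCofOmega E) ∧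
      (∀ S : Set (Set X), #S < #K → (∀ s ∈ S, s ∈ V) → ⋂₀ S ∈ V)) ∧
    ((∀ (X : Type u) (V : Ultrafilter X), TukeyLE V U → ∃ n : ℕ, RKEquiv V (fubiniPow U n)) ↔
      ¬ ∃ E : Ultrafilter K, TukeyLE E U ∧ ClubCofOmega E) := by
  have hN : Nm U := ⟨hU.1, hU.2, hU.3, hU.4, hU.5⟩
  have hb : ∀ (X : Type u) (V : Ultrafilter X), TukeyLE V U →
      ((∃ n : ℕ, RKEquiv V (fubiniPow U n)) ↔
        ¬ ∃ E : Ultrafilter K, RKLE E V ∧ TukeyLE E U ∧ ClubCofOmega E) := by
    intro X V hV
    constructor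
    · rintro ⟨n, hn⟩ ⟨E, ⟨g, hg⟩, -, hE1, hE2⟩
      rw [rk_iff] at hn
      obtain ⟨⟨φ, hφ⟩, -⟩ := hn
      have h1 : (pow U n).map (fun l => g (φ l)) = E := by
        rw [← hg, ← hφ]
        rfl
      refine no_pow_club hN n (fun l => g (φ l)) (fun C hC => ?_) ?_
      · have h2 := hE1 C hC
        rw [← h1] at h2
        exact h2
      · rw [← h1] at hE2
        exact hE2
    · intro hno
      by_contra hcon
      push Not at hcon
      obtain ⟨σ, h1, h2, h3⟩ := exists_bad hN ((tr_iff U V).1 hV)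
        (fun n hn => hcon n ((rk_iff U V n).2 hn))
      exact hno ⟨V.map σ, ⟨σ, rfl⟩, (tr_iff _ _).2 h1, h2, h3⟩
  refine ⟨fun X V hV => ⟨?_, hb X V hV, ?_⟩, ?_⟩
  · by_cases hn : ∃ n : ℕ, RKEquiv V (fubiniPow U n)
    · exact Or.inl hn
    · right
      push Not at hn
      obtain ⟨f, hf⟩ := (tr_iff U V).1 hV
      obtain ⟨h, hh⟩ := dich hN ⟨f, hf⟩ (fun n hn' => hn n ((rk_iff U V n).2 hn'))
      refine ⟨h, seq_strictMono (hf.cpl hN) hN hh, fun n => ?_⟩
      rw [fubiniPow_eq]
      exact hh n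
  · intro S hS hSV
    obtain ⟨f, hf⟩ := (tr_iff U V).1 hV
    rw [sInter_eq_iInter]
    exact hf.cpl hN (↥S) (fun s => s.1) hS (fun s => hSV s.1 s.2)
  · constructor
    · rintro h ⟨E, hE, hE2⟩
      exact (hb K E hE).1 (h K E hE) ⟨E, ⟨id, Ultrafilter.map_id E⟩, hE, hE2⟩
    · intro hno X V hV
      refine (hb X V hV).2 ?_
      rintro ⟨E, -, hE, hE2⟩
      exact hno ⟨E, hE, hE2⟩

end Pool.Agent.Results.MP_491cc4_lc.TukeyDichotomy
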